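import Pool.Agent.BS.Alt

/-!
# Alexander–Spanier cohomology: definitions

The Alexander–Spanier cohomology with rational coefficients of a subspace `S` of a topological
space `A`, in degree `n ≥ 1`: the cochains are the functions `(Fin (n + 1) → A) → ℚ` (only their
values on `S` near the diagonal matter), the differential is the alternating sum `alt`. For compact
Hausdorff spaces, and for locally contractible spaces, this is the usual cohomology.
-/

set_option linter.unusedSectionVars false

open Topology

namespace Pool.Agent.BS

variable {A : Type*} [TopologicalSpace A]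

/-- The function `φ` vanishes on `S` near the diagonal. -/
def LocallyZeroOn {n : ℕ} (S : Set A) (φ : (Fin n → A) → ℚ) : Prop :=
  ∀ p ∈ S, ∃ U ∈ 𝓝 p, ∀ x : Fin n → A, (∀ i, x i ∈ U ∩ S) → φ x = 0

/-- `φ` is an Alexander–Spanier cocycle on `S` (of degree `n - 1`). -/
def IsCocycleOn {n : ℕ} (S : Set A) (φ : (Fin n → A) → ℚ) : Prop := LocallyZeroOn S (alt φ)

/-- `φ` is an Alexander–Spanier coboundary on `S` (of degree `n`): its class in the cohomology of
`S` is zero. -/
def IsCoboundaryOn {n : ℕ} (S : Set A) (φ : (Fin (n + 1) → A) → ℚ) : Prop :=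
  ∃ ψ : (Fin n → A) → ℚ, LocallyZeroOn S (φ - alt ψ)

end Pool.Agent.BS
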