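import Mathlib

/-!
# The alternating sum over the faces
-/

open Finset

namespace Pool.Agent.BS

/-- The alternating sum over the faces of `τ`. For `M = ℚ` this is the coboundary of the cochain
`F`. -/
def alt {K : Type*} {M : Type*} [AddCommGroup M] {n : ℕ} (F : (Fin n → K) → M)
    (τ : Fin (n + 1) → K) : M :=
  ∑ i : Fin (n + 1), (-1 : ℤ) ^ (i : ℕ) • F fun j => τ (i.succAbove j)

end Pool.Agent.BS
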