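import Mathlib

/-!
# The metric of the complex projective space

The point with homogeneous coordinates `v` is identified with the orthogonal projector onto the line
`ℂ v`, i.e. with the matrix `v i * conj (v j) / ∑ l, |v l| ^ 2`. The distance of two points is the
distance (for the maximum norm) of the matrices. This gives the usual topology.
-/

set_option linter.unusedSectionVars false

open Topology
open scoped LinearAlgebra.Projectivization ComplexConjugate

namespace Pool.Agent.BS

variable {J : Type} [Fintype J]

/-- The matrix of the orthogonal projector onto the line of `p`. -/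
noncomputable def projector (p : ℙ ℂ (J → ℂ)) : J → J → ℂ := fun i j =>
  p.rep i * conj (p.rep j) / ∑ l, p.rep l * conj (p.rep l)

/-- The square of the norm of a nonzero vector is not zero. -/
theorem normSq_ne_zero {v : J → ℂ} (hv : v ≠ 0) : ∑ l, v l * conj (v l) ≠ 0 := by
  have h1 : ∑ l, v l * conj (v l) = ((∑ l, Complex.normSq (v l) : ℝ) : ℂ) := by
    push_cast
    exact Finset.sum_congr rfl fun l _ => Complex.mul_conj (v l)
  rw [h1, Complex.ofReal_ne_zero]
  obtain ⟨j, hj⟩ := Function.ne_iff.1 hv
  refine (Finset.sum_pos' (fun l _ => Complex.normSq_nonneg _) ⟨j, Finset.mem_univ j, ?_⟩).ne'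
  exact Complex.normSq_pos.2 hj

theorem exists_rep_ne_zero {κ : Type*} [Field κ] (p : ℙ κ (J → κ)) : ∃ j, p.rep j ≠ 0 :=
  Function.ne_iff.1 p.rep_nonzero

theorem projector_injective : Function.Injective (projector (J := J)) := by
  intro p q h
  obtain ⟨j, hj⟩ := exists_rep_ne_zero p
  have hp := normSq_ne_zero p.rep_nonzero
  have hq := normSq_ne_zero q.rep_nonzero
  have hj' : conj (p.rep j) ≠ 0 := by simpa using hj
  rw [← Projectivization.mk_rep p, ← Projectivization.mk_rep q, Projectivization.mk_eq_mk_iff']
  refine ⟨conj (q.rep j) * (∑ l, p.rep l * conj (p.rep l)) /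
    ((∑ l, q.rep l * conj (q.rep l)) * conj (p.rep j)), ?_⟩
  funext i
  have h1 : projector p i j = projector q i j := by rw [h]
  unfold projector at h1
  rw [div_eq_div_iff hp hq] at h1
  rw [Pi.smul_apply, smul_eq_mul, div_mul_eq_mul_div, div_eq_iff (mul_ne_zero hq hj')]
  linear_combination -h1

/-- The distance of two points is the distance of the projectors. -/
noncomputable instance : MetricSpace (ℙ ℂ (J → ℂ)) :=
  MetricSpace.induced projector projector_injective inferInstance

end Pool.Agent.BS
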